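import Pool.Agent.Work.MP_fa3ce5_an.Bd.B04
import Pool.Agent.Work.MP_fa3ce5_an.Bd.B02
import Pool.Agent.Work.MP_fa3ce5_an.Bd.B03

set_option autoImplicit false

/-!
# Kernels of rank two: all items proved
-/

namespace Pool.Agent.Work.MP_fa3ce5_an.R2

open MeasureTheory ProbabilityTheory

theorem pr_Case_all : StCase :=
  pr_Case (pr_Min (pr_Dich pr_Law) pr_Swap) pr_Sign1 pr_Sign2
    (pr_A (pr_Exp pr_Law)) (pr_B pr_Rect pr_Eig) (pr_Last pr_Alg pr_Ent pr_Eig)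
    (pr_Dich pr_Law) (pr_Zero (pr_Exp pr_Law) (pr_Rel (pr_Rel1 pr_Law))) pr_Ent

theorem ind_of_indep {α : Type} [MeasurableSpace α] (μ : Measure α) [IsProbabilityMeasure μ]
    (F : SA α) (q : α × α → α) (hq : MeasurePreserving q (μ.prod μ) μ)
    (h : Indep F (MeasurableSpace.comap q (inferInstance : MeasurableSpace α)) (μ.prod μ))
    (s : Set (α × α)) (t : Set α) (hs : MeasurableSet[F] s) (ht : MeasurableSet t) :
    (μ.prod μ) (s ∩ q ⁻¹' t) = (μ.prod μ) s * μ t := by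
  rw [(Indep_iff _ _ _).1 h s (q ⁻¹' t) hs ⟨t, ht, rfl⟩, hq.measure_preimage ht.nullMeasurableSet]

theorem final (α : Type) [MeasurableSpace α] [StandardBorelSpace α]
    (μ : Measure α) [IsProbabilityMeasure μ] (T : α ≃ᵐ α) (hT : MeasurePreserving (⇑T) μ μ)
    (hE : Ergodic (Prod.map ⇑T ⇑T) (μ.prod μ)) (F : SA α)
    (hle : ∀ s : Set (α × α), MeasurableSet[F] s → MeasurableSet s)
    (hinv : ∀ s : Set (α × α), MeasurableSet[F] s ↔ MeasurableSet[F] (Prod.map ⇑T ⇑T ⁻¹' s))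
    (h1 : Indep F (MeasurableSpace.comap Prod.fst (inferInstance : MeasurableSpace α)) (μ.prod μ))
    (h2 : Indep F (MeasurableSpace.comap Prod.snd (inferInstance : MeasurableSpace α)) (μ.prod μ))
    (K : α × α → ℝ) (f g a₁ a₂ b₁ b₂ : α → ℝ) (hK : Measurable[F] K) (hf : MemLp f 2 μ)
    (hg : MemLp g 2 μ) (ha₁ : MemLp a₁ 2 μ) (ha₂ : MemLp a₂ 2 μ) (hb₁ : MemLp b₁ 2 μ)
    (hb₂ : MemLp b₂ 2 μ)
    (hKe : ∀ᵐ p ∂(μ.prod μ), K p = f p.1 + g p.2 + a₁ p.1 * b₁ p.2 + a₂ p.1 * b₂ p.2)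
    (hKn : ¬ ∃ c : ℝ, ∀ᵐ p ∂(μ.prod μ), K p = c) : PosEnt μ T :=
  main pr_Cpl (pr_Norm0 (pr_Exp pr_Law)) (pr_Norm1 (pr_Exp pr_Law)) pr_Rect (pr_Bdd pr_Law)
    (pr_Abs (pr_Exp pr_Law)) pr_Case_all α μ T hT hE F hle hinv
    (ind_of_indep μ F Prod.fst measurePreserving_fst h1)
    (ind_of_indep μ F Prod.snd measurePreserving_snd h2)
    K f g a₁ a₂ b₁ b₂ hK hf hg ha₁ ha₂ hb₁ hb₂ hKe hKn

end Pool.Agent.Work.MP_fa3ce5_an.R2
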